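import Pool.Agent.Q128.MixTransfer

/-!
# The circular mixing threshold is rational

Let `G` be a graph with `n` vertices. If no fraction `L / w` with `L ≤ n + 1` lies between `k / q` and
`k' / q'`, then `G` is `(k, q)`-mixing if and only if it is `(k', q')`-mixing: the colourings inducing
a given orientation form a distributive lattice, which is connected under moves by one unit since
there are no tight cycles, and the minimal colouring inducing an orientation has values of the form
`A q - B k` with `A < n`; the same applies to the graph with one vertex doubled, whose colourings are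
the pairs of colourings of `G` differing at this vertex at most. An irrational infimum has a
neighbourhood which contains no such fraction.
-/

set_option autoImplicit false

namespace Pool.Agent.Results.MP_05142a_co.Rational

open Q128.Mixing Q128.MixTransfer

/-- near an irrational positive number the signs of `w x - L`, `1 ≤ L ≤ N`, are constant -/
theorem eventually_sign (α : ℝ) (hα : Irrational α) (hpos : 0 < α) (N : ℕ) :
    ∀ᶠ x in nhds α, ∀ L w : ℕ, 1 ≤ L → L ≤ N →
      ((w : ℝ) * x < L ∧ (w : ℝ) * α < L) ∨ ((L : ℝ) < w * x ∧ (L : ℝ) < w * α) := by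
  obtain ⟨W, hW⟩ := exists_nat_gt (2 * N / α)
  have h1 : ∀ᶠ x in nhds α, α / 2 < x := lt_mem_nhds (by linarith)
  have h2 : ∀ᶠ x in nhds α, ∀ L ∈ Finset.range (N + 1), ∀ w ∈ Finset.range (W + 1),
      1 ≤ L → ((w : ℝ) * x < L ∧ (w : ℝ) * α < L) ∨ ((L : ℝ) < w * x ∧ (L : ℝ) < w * α) := by
    rw [Filter.eventually_all_finset]
    intro L _
    rw [Filter.eventually_all_finset]
    intro w _
    by_cases hL : 1 ≤ L
    · have hne : (w : ℝ) * α ≠ L := by
        intro he
        by_cases hw : w = 0
        · subst hw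
          have : (0 : ℝ) = L := by simpa using he
          have hL' : (1 : ℝ) ≤ L := by exact_mod_cast hL
          linarith
        · exact (hα.natCast_mul hw).ne_nat L he
      rcases lt_or_gt_of_ne hne with h | h
      · have hc : Filter.Tendsto (fun x : ℝ => (w : ℝ) * x) (nhds α) (nhds ((w : ℝ) * α)) :=
          (continuous_const.mul continuous_id).tendsto α
        filter_upwards [hc.eventually (gt_mem_nhds h)] with x hx _
        exact Or.inl ⟨hx, h⟩
      · have hc : Filter.Tendsto (fun x : ℝ => (w : ℝ) * x) (nhds α) (nhds ((w : ℝ) * α)) :=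
          (continuous_const.mul continuous_id).tendsto α
        filter_upwards [hc.eventually (lt_mem_nhds h)] with x hx _
        exact Or.inr ⟨hx, h⟩
    · exact Filter.Eventually.of_forall fun x h => absurd h hL
  filter_upwards [h1, h2] with x hx1 hx2 L w hL1 hL2
  by_cases hw : w ≤ W
  · exact hx2 L (Finset.mem_range.2 (by omega)) w (Finset.mem_range.2 (by omega)) hL1
  · right
    push Not at hw
    have h3 : (2 * N / α : ℝ) < w := lt_trans hW (by exact_mod_cast hw)
    rw [div_lt_iff₀ hpos] at h3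
    have h4 : (L : ℝ) ≤ N := by exact_mod_cast hL2
    have h5 : (0 : ℝ) ≤ w := by positivity
    constructor
    · nlinarith
    · nlinarith

theorem rational_of_isGLB {V : Type} [Fintype V] (G : SimpleGraph V) (α : ℝ)
    (h : IsGLB (mixingRatios G) α) : ∃ y : ℚ, α = y := by
  by_contra hirr
  have hα : Irrational α := by
    rw [irrational_iff_ne_rational]
    intro a b hb he
    apply hirr
    exact ⟨(a : ℚ) / b, by rw [he]; push_cast; rfl⟩
  -- pairs with ratio greater than `α` are mixing
  have habove : ∀ k q : ℕ, 1 ≤ k → 1 ≤ q → α < (k : ℝ) / q → IsMixing G k q := by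
    intro k q hk hq hlt
    obtain ⟨x, hx, hxlt⟩ : ∃ x ∈ mixingRatios G, x < (k : ℝ) / q := by
      by_contra hno
      push Not at hno
      have := h.2 hno
      linarith
    obtain ⟨l, rfl, hl⟩ := hx
    apply hl k q hk hq
    have : ((l : ℚ) : ℝ) ≤ (((k : ℚ) / q : ℚ) : ℝ) := by push_cast; exact hxlt.le
    exact_mod_cast this
  have hpos : 0 < α := by
    by_contra hneg
    push Not at hneg
    have hlt : α < 0 := lt_of_le_of_ne hneg hα.ne_zero
    have hmem : (((⌊α⌋ - 1 : ℤ) : ℚ) : ℝ) ∈ mixingRatios G := by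
      refine ⟨((⌊α⌋ - 1 : ℤ) : ℚ), rfl, fun k q hk hq _ => habove k q hk hq ?_⟩
      have : (0 : ℝ) ≤ (k : ℝ) / q := by positivity
      linarith
    have h1 := h.1 hmem
    have h2 := Int.floor_le α
    push_cast at h1
    linarith
  have hev := eventually_sign α hα hpos (Fintype.card V + 1)
  obtain ⟨a, b, ⟨ha, hb⟩, hab⟩ := mem_nhds_iff_exists_Ioo_subset.1 hev
  -- signs for pairs with ratio near `α`
  have hsign : ∀ k q : ℕ, 1 ≤ q → a < (k : ℝ) / q → (k : ℝ) / q < b → ∀ L w : ℕ, 1 ≤ L →
      L ≤ Fintype.card V + 1 → (w * k < L * q ∧ (w : ℝ) * α < L) ∨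
        (L * q < w * k ∧ (L : ℝ) < w * α) := by
    intro k q hq h1 h2 L w hL1 hL2
    have hq' : (0 : ℝ) < q := by exact_mod_cast hq
    have e1 : (w : ℝ) * ((k : ℝ) / q) = ((w * k : ℕ) : ℝ) / q := by push_cast; ring
    rcases hab ⟨h1, h2⟩ L w hL1 hL2 with h3 | h3
    · left
      refine ⟨?_, h3.2⟩
      have h4 := h3.1
      rw [e1, div_lt_iff₀ hq'] at h4
      exact_mod_cast h4
    · right
      refine ⟨?_, h3.2⟩
      have h4 := h3.1
      rw [e1, lt_div_iff₀ hq'] at h4
      exact_mod_cast h4
  have hsame : ∀ k q k' q' : ℕ, 1 ≤ q → 1 ≤ q' → a < (k : ℝ) / q → (k : ℝ) / q < b →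
      a < (k' : ℝ) / q' → (k' : ℝ) / q' < b → Same (Fintype.card V + 1) k q k' q' := by
    intro k q k' q' hq hq' h1 h2 h3 h4 L w hL1 hL2
    rcases hsign k q hq h1 h2 L w hL1 hL2 with h5 | h5 <;>
      rcases hsign k' q' hq' h3 h4 L w hL1 hL2 with h6 | h6
    · exact Or.inl ⟨h5.1, h6.1⟩
    · linarith [h5.2, h6.2]
    · linarith [h5.2, h6.2]
    · exact Or.inr ⟨h5.1, h6.1⟩
  -- a pair with ratio slightly greater than `α`
  obtain ⟨r₁, hr1, hr2⟩ := exists_rat_btwn hb
  obtain ⟨k₁, q₁, hk1, hq1, he1⟩ : ∃ k q : ℕ, 1 ≤ k ∧ 1 ≤ q ∧ (r₁ : ℝ) = (k : ℝ) / q := by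
    have hr0 : 0 < r₁ := by
      have : (0 : ℝ) < r₁ := hpos.trans hr1
      exact_mod_cast this
    have hnum : 0 < r₁.num := Rat.num_pos.2 hr0
    refine ⟨r₁.num.toNat, r₁.den, by omega, r₁.pos, ?_⟩
    have h1 : ((r₁.num.toNat : ℕ) : ℝ) = ((r₁.num : ℤ) : ℝ) := by
      have : ((r₁.num.toNat : ℕ) : ℤ) = r₁.num := Int.toNat_of_nonneg hnum.le
      exact_mod_cast this
    rw [h1]
    exact_mod_cast (Rat.num_div_den r₁).symm
  have hm1 : IsMixing G k₁ q₁ := habove k₁ q₁ hk1 hq1 (he1 ▸ hr1)
  -- a rational slightly less than `α` also belongs to the set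
  obtain ⟨r₂, hr3, hr4⟩ := exists_rat_btwn ha
  have hmem : (r₂ : ℝ) ∈ mixingRatios G := by
    refine ⟨r₂, rfl, fun k q hk hq hle => ?_⟩
    have hle' : (r₂ : ℝ) ≤ (k : ℝ) / q := by
      have : ((r₂ : ℚ) : ℝ) ≤ (((k : ℚ) / q : ℚ) : ℝ) := by exact_mod_cast hle
      push_cast at this
      exact this
    by_cases hlt : α < (k : ℝ) / q
    · exact habove k q hk hq hlt
    · push Not at hlt
      exact mixing_transfer (N := Fintype.card V + 1) le_rfl
        (hsame k₁ q₁ k q hq1 hq (by rw [← he1]; linarith) (by rw [← he1]; exact hr2) (by linarith)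
          (by linarith)) hk1 hk hq1 hq hm1
  have := h.1 hmem
  linarith

/-- **The circular mixing threshold is rational.** For every finite graph `G` the number
`circularMixingThreshold G` is rational; moreover, if a real number is the greatest lower bound of
`mixingRatios G`, then it is rational. -/
theorem result : ∀ (V : Type) [Fintype V] (G : SimpleGraph V),
    (∃ y : ℚ, circularMixingThreshold G = y) ∧
    ∀ x : ℝ, IsGLB (mixingRatios G) x → ∃ y : ℚ, x = y := by
  intro V _ G
  refine ⟨?_, rational_of_isGLB G⟩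
  by_cases hne : (mixingRatios G).Nonempty
  · by_cases hbdd : BddBelow (mixingRatios G)
    · exact rational_of_isGLB G _ (isGLB_csInf hne hbdd)
    · exact ⟨0, by rw [circularMixingThreshold, Real.sInf_of_not_bddBelow hbdd]; simp⟩
  · rw [Set.not_nonempty_iff_eq_empty] at hne
    exact ⟨0, by rw [circularMixingThreshold, hne, Real.sInf_empty]; simp⟩

end Pool.Agent.Results.MP_05142a_co.Rational
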